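import Mathlib

open Filter Topology Polynomial
open scoped Pointwise ENNReal

namespace Pool.Agent.Results.MP_e13f3c_al.EntZeroOrTop

section Defs

variable {M : Type*} [AddCommGroup M]

/-- The trajectory `T_n(φ, F) = F + φ F + ... + φ^(n-1) F` (a subgroup). -/
def T (φ : AddMonoid.End M) (F : AddSubgroup M) (n : ℕ) : AddSubgroup M :=
  ⨆ j ∈ Finset.range n, F.map (φ ^ j : AddMonoid.End M)

/-- `H(φ, F) = lim log |T_n(φ, F)| / n` (the limit exists, see `tendsto_H`). -/
noncomputable def H (φ : AddMonoid.End M) (F : AddSubgroup M) : ℝ :=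
  limUnder atTop (fun n : ℕ => Real.log (Nat.card (T φ F n)) / n)

/-- The algebraic entropy: the supremum of `H(φ, F)` over all finite subgroups `F`. -/
noncomputable def ent (φ : AddMonoid.End M) : ℝ≥0∞ :=
  ⨆ F : AddSubgroup M, ⨆ _ : Finite F, ENNReal.ofReal (H φ F)

lemma T_zero (φ : AddMonoid.End M) (F : AddSubgroup M) : T φ F 0 = ⊥ := by
  simp [T]

lemma T_succ (φ : AddMonoid.End M) (F : AddSubgroup M) (n : ℕ) :
    T φ F (n + 1) = T φ F n ⊔ F.map (φ ^ n : AddMonoid.End M) := by
  unfold T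
  rw [Finset.range_add_one, Finset.iSup_insert, sup_comm]

lemma map_le_T (φ : AddMonoid.End M) (F : AddSubgroup M) {j n : ℕ} (h : j < n) :
    F.map (φ ^ j : AddMonoid.End M) ≤ T φ F n :=
  le_iSup₂_of_le j (Finset.mem_range.mpr h) le_rfl

lemma T_add (φ : AddMonoid.End M) (F : AddSubgroup M) (m n : ℕ) :
    T φ F (m + n) = T φ F m ⊔ (T φ F n).map (φ ^ m : AddMonoid.End M) := by
  induction n with
  | zero => rw [T_zero, AddSubgroup.map_bot, sup_bot_eq, add_zero]
  | succ n ih =>
    rw [← add_assoc, T_succ, ih, T_succ φ F n, AddSubgroup.map_sup, sup_assoc, AddSubgroup.map_map]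
    congr 2
    rw [pow_add]
    rfl

lemma finite_sup {A B : AddSubgroup M} [Finite A] [Finite B] :
    Finite (A ⊔ B : AddSubgroup M) ∧ Nat.card (A ⊔ B : AddSubgroup M) ≤ Nat.card A * Nat.card B := by
  have h1 : ((A ⊔ B : AddSubgroup M) : Set M) = (A : Set M) + B := AddSubgroup.add_normal A B
  have h2 : ((A : Set M) + B).Finite := Set.Finite.add (Set.toFinite _) (Set.toFinite _)
  constructor
  · have h3 : ((A ⊔ B : AddSubgroup M) : Set M).Finite := by rw [h1]; exact h2
    exact h3
  · have h4 : Nat.card ((A ⊔ B : AddSubgroup M) : Set M) ≤ Nat.card (A : Set M) * Nat.card (B : Set M) := by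
      rw [h1]
      exact Set.natCard_add_le
    exact h4

lemma finite_T (φ : AddMonoid.End M) (F : AddSubgroup M) [Finite F] (n : ℕ) :
    Finite (T φ F n) := by
  induction n with
  | zero =>
    rw [T_zero]
    infer_instance
  | succ n ih =>
    rw [T_succ]
    have : Finite (F.map (φ ^ n : AddMonoid.End M)) :=
      (Set.toFinite (F : Set M)).image (φ ^ n : AddMonoid.End M)
    exact finite_sup.1

lemma card_map_le {N : Type*} [AddCommGroup N] (f : M →+ N) (F : AddSubgroup M) [Finite F] :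
    Nat.card (F.map f) ≤ Nat.card F := by
  have h : Function.Surjective (fun x : F => (⟨f x, x, x.2, rfl⟩ : F.map f)) := by
    rintro ⟨_, x, hx, rfl⟩
    exact ⟨⟨x, hx⟩, rfl⟩
  exact Nat.card_le_card_of_surjective _ h

lemma subadditive_log (φ : AddMonoid.End M) (F : AddSubgroup M) [Finite F] :
    Subadditive (fun n : ℕ => Real.log (Nat.card (T φ F n))) := by
  intro m n
  have hm := finite_T φ F m
  have hn := finite_T φ F n
  have hmn := finite_T φ F (m + n)
  have h1 : Finite ((T φ F n).map (φ ^ m : AddMonoid.End M)) :=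
    (Set.toFinite (T φ F n : Set M)).image (φ ^ m : AddMonoid.End M)
  have h2 : Nat.card (T φ F (m + n)) ≤ Nat.card (T φ F m) * Nat.card (T φ F n) := by
    rw [T_add]
    exact finite_sup.2.trans (Nat.mul_le_mul_left _ (card_map_le _ _))
  have p1 : (0 : ℝ) < Nat.card (T φ F m) := by exact_mod_cast Nat.card_pos
  have p2 : (0 : ℝ) < Nat.card (T φ F n) := by exact_mod_cast Nat.card_pos
  have p3 : (0 : ℝ) < Nat.card (T φ F (m + n)) := by exact_mod_cast Nat.card_pos
  change Real.log (Nat.card (T φ F (m + n))) ≤ Real.log (Nat.card (T φ F m)) +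
    Real.log (Nat.card (T φ F n))
  rw [← Real.log_mul p1.ne' p2.ne']
  exact Real.log_le_log p3 (by exact_mod_cast h2)

/-- The limit in the definition of `H(φ, F)` exists for every finite subgroup `F`. -/
theorem tendsto_H (φ : AddMonoid.End M) (F : AddSubgroup M) [Finite F] :
    Tendsto (fun n : ℕ => Real.log (Nat.card (T φ F n)) / n) atTop (𝓝 (H φ F)) := by
  have h1 := (subadditive_log φ F).tendsto_lim
    ⟨0, by
      rintro _ ⟨n, rfl⟩
      exact div_nonneg (Real.log_natCast_nonneg _) (Nat.cast_nonneg _)⟩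
  have h2 : H φ F = (subadditive_log φ F).lim := h1.limUnder_eq
  rw [h2]
  exact h1

/-- If the trajectories are bounded, the entropy vanishes. -/
lemma H_eq_zero (φ : AddMonoid.End M) (F : AddSubgroup M) [Finite F] (d : ℕ)
    (h : ∀ n, T φ F n ≤ T φ F d) : H φ F = 0 := by
  have hd := finite_T φ F d
  have h1 : Tendsto (fun n : ℕ => Real.log (Nat.card (T φ F n)) / n) atTop (𝓝 0) := by
    refine squeeze_zero (fun n => div_nonneg (Real.log_natCast_nonneg _) (Nat.cast_nonneg _))
      (fun n => ?_) (tendsto_const_div_atTop_nhds_zero_nat (Real.log (Nat.card (T φ F d))))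
    refine div_le_div_of_nonneg_right ?_ (Nat.cast_nonneg _)
    have hn := finite_T φ F n
    have p1 : (0 : ℝ) < Nat.card (T φ F n) := by exact_mod_cast Nat.card_pos
    refine Real.log_le_log p1 ?_
    have : Nat.card (T φ F n) ≤ Nat.card (T φ F d) :=
      Nat.card_le_card_of_injective _ (AddSubgroup.inclusion_injective (h n))
    exact_mod_cast this
  exact tendsto_nhds_unique (tendsto_H φ F) h1

/-- Lower bound for `H`. -/
lemma le_H (φ : AddMonoid.End M) (F : AddSubgroup M) [Finite F] (c : ℝ)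
    (h : ∀ n : ℕ, c * n ≤ Real.log (Nat.card (T φ F n))) : c ≤ H φ F := by
  refine ge_of_tendsto (tendsto_H φ F) ?_
  filter_upwards [eventually_gt_atTop 0] with n hn
  rw [le_div_iff₀ (by exact_mod_cast hn)]
  exact h n

end Defs

section PartA

variable {p : ℕ} [hp : Fact p.Prime] {V : Type*} [AddCommGroup V] [Module (ZMod p) V]

lemma countable_poly : Countable (ZMod p)[X] :=
  Cardinal.mk_le_aleph0_iff.mp (Polynomial.cardinalMk_le_max.trans
    (max_le Cardinal.mk_le_aleph0 le_rfl))

/-- If a nonzero polynomial in `φ` kills `V` then `φ ^ s = φ ^ t` on `V` for some `t < s`. -/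
lemma pow_eq_of_aeval (φ : Module.End (ZMod p) V) (g : (ZMod p)[X]) (hg : g ≠ 0)
    (h : ∀ v, aeval φ g v = 0) : ∃ s t : ℕ, t < s ∧ ∀ v, (φ ^ s) v = (φ ^ t) v := by
  have hfin : Finite (degreeLT (ZMod p) g.natDegree) :=
    Finite.of_equiv _ (degreeLTEquiv (ZMod p) g.natDegree).symm.toEquiv
  let r : ℕ → degreeLT (ZMod p) g.natDegree := fun n => ⟨X ^ n % g, by
    rw [mem_degreeLT, ← degree_eq_natDegree hg]
    exact EuclideanDomain.mod_lt _ hg⟩
  obtain ⟨a, b, hab, hr⟩ := Finite.exists_ne_map_eq_of_infinite r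
  have hr' : (X ^ a % g : (ZMod p)[X]) = X ^ b % g := congrArg Subtype.val hr
  have key : ∀ v, (φ ^ a) v = (φ ^ b) v := by
    intro v
    have h1 : ∀ n : ℕ, (φ ^ n) v = aeval φ (X ^ n % g : (ZMod p)[X]) v := by
      intro n
      have h2 : (X ^ n : (ZMod p)[X]) = g * (X ^ n / g) + X ^ n % g :=
        (EuclideanDomain.div_add_mod _ _).symm
      have h3 : (φ ^ n) v = aeval φ (X ^ n : (ZMod p)[X]) v := by simp
      rw [h3]
      conv_lhs => rw [h2]
      rw [map_add, map_mul, LinearMap.add_apply, Module.End.mul_apply, h, zero_add]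
    rw [h1, h1, hr']
  rcases lt_or_gt_of_ne hab with hlt | hlt
  · exact ⟨b, a, hlt, fun v => (key v).symm⟩
  · exact ⟨a, b, hlt, key⟩

variable [TopologicalSpace V] [IsTopologicalAddGroup V]

lemma continuous_aeval (φ : Module.End (ZMod p) V) (hφ : Continuous φ) (f : (ZMod p)[X]) :
    Continuous (aeval φ f : V → V) := by
  induction f using Polynomial.induction_on with
  | C a =>
    have h1 : (aeval φ (C a : (ZMod p)[X]) : V → V) = fun v => a.val • v := by
      funext v
      rw [aeval_C, Module.algebraMap_end_apply, ← Nat.cast_smul_eq_nsmul (ZMod p), ZMod.natCast_val,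
        ZMod.cast_id]
    rw [h1]
    exact continuous_const_smul _
  | add f g hf hg =>
    rw [map_add]
    exact hf.add hg
  | monomial n a ih =>
    rw [pow_succ, ← mul_assoc, map_mul, aeval_X]
    exact ih.comp hφ

/-- The Baire category argument. -/
lemma baire_step [CompactSpace V] [T2Space V] (φ : Module.End (ZMod p) V) (hφ : Continuous φ)
    (hne : ¬ ∃ s t : ℕ, t < s ∧ ∀ v, (φ ^ s) v = (φ ^ t) v) (W : Set V) (hW : W.Countable) :
    ∃ v, ∀ f : (ZMod p)[X], f ≠ 0 → aeval φ f v ∉ W := by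
  by_contra hcon
  push Not at hcon
  apply hne
  have hc1 : Countable (ZMod p)[X] := countable_poly
  have hc2 : Countable W := hW
  let ι := {f : (ZMod p)[X] // f ≠ 0} × W
  have hcl : ∀ i : ι, IsClosed {v | aeval φ i.1.1 v = i.2.1} := fun i =>
    isClosed_eq (continuous_aeval φ hφ i.1.1) continuous_const
  have hun : ⋃ i : ι, {v | aeval φ i.1.1 v = i.2.1} = Set.univ := by
    rw [Set.eq_univ_iff_forall]
    intro v
    obtain ⟨f, hf, hfv⟩ := hcon v
    exact Set.mem_iUnion.mpr ⟨(⟨f, hf⟩, ⟨_, hfv⟩), rfl⟩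
  obtain ⟨⟨⟨f, hf⟩, w⟩, v₀, hv₀⟩ := nonempty_interior_of_iUnion_of_closed hcl hun
  -- the kernel of `f(φ)` is open
  let Z : AddSubgroup V := (aeval φ f : V →ₗ[ZMod p] V).toAddMonoidHom.ker
  have hmemZ : ∀ v, v ∈ Z ↔ aeval φ f v = 0 := fun v => Iff.rfl
  have hZ : (Z : Set V) ∈ 𝓝 (0 : V) := by
    have h1 : {v | aeval φ f v = w.1} ∈ 𝓝 (v₀ + 0) := by
      rw [add_zero]
      exact mem_interior_iff_mem_nhds.mp hv₀
    have h2 : Continuous (fun v : V => v₀ + v) := by fun_prop
    refine Filter.mem_of_superset (h2.continuousAt.preimage_mem_nhds h1) ?_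
    intro v hv
    have h3 : aeval φ f (v₀ + v) = w.1 := hv
    have h4 : aeval φ f v₀ = w.1 :=
      (interior_subset : interior {v | aeval φ f v = w.1} ⊆ {v | aeval φ f v = w.1}) hv₀
    rw [map_add, h4] at h3
    exact (hmemZ v).mpr (add_eq_left.mp h3)
  have hZo : IsOpen (Z : Set V) := AddSubgroup.isOpen_of_mem_nhds Z hZ
  have hfinq : Finite (V ⧸ Z) := AddSubgroup.quotient_finite_of_isOpen Z hZo
  -- the range of `f(φ)` is finite
  have hrange : (Set.range (aeval φ f : V → V)).Finite := by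
    have h1 : Set.range (aeval φ f : V → V) = Set.range
        (fun q : V ⧸ Z => aeval φ f (q.out)) := by
      ext y
      constructor
      · rintro ⟨v, rfl⟩
        refine ⟨(v : V ⧸ Z), ?_⟩
        have h2 : -((v : V ⧸ Z).out) + v ∈ Z := by
          rw [← QuotientAddGroup.eq, QuotientAddGroup.out_eq']
        rw [hmemZ, map_add, map_neg, neg_add_eq_zero] at h2
        exact h2
      · rintro ⟨q, rfl⟩
        exact ⟨_, rfl⟩
    rw [h1]
    exact Set.finite_range _
  have hU : Finite (Set.range (aeval φ f : V → V)) := hrange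
  have hmaps : ∀ n : ℕ, ∀ u ∈ Set.range (aeval φ f : V → V),
      (φ ^ n) u ∈ Set.range (aeval φ f : V → V) := by
    rintro n _ ⟨v, rfl⟩
    refine ⟨(φ ^ n) v, ?_⟩
    have h1 : (φ ^ n) = aeval φ (X ^ n : (ZMod p)[X]) := by simp
    rw [h1, ← Module.End.mul_apply, ← Module.End.mul_apply, ← map_mul, ← map_mul, mul_comm]
  let r : ℕ → (Set.range (aeval φ f : V → V) → Set.range (aeval φ f : V → V)) :=
    fun n u => ⟨(φ ^ n) u.1, hmaps n u.1 u.2⟩
  obtain ⟨a, b, hab, hr⟩ := Finite.exists_ne_map_eq_of_infinite r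
  refine pow_eq_of_aeval φ ((X ^ a - X ^ b) * f) ?_ ?_
  · refine mul_ne_zero ?_ hf
    intro h
    apply hab
    have h1 : (X ^ a : (ZMod p)[X]) = X ^ b := sub_eq_zero.mp h
    have h2 := congrArg natDegree h1
    rwa [natDegree_X_pow, natDegree_X_pow] at h2
  · intro v
    have h1 := congrArg Subtype.val (congrFun hr ⟨_, v, rfl⟩)
    change (φ ^ a) (aeval φ f v) = (φ ^ b) (aeval φ f v) at h1
    rw [map_mul, Module.End.mul_apply, map_sub, LinearMap.sub_apply]
    simp only [map_pow, aeval_X]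
    rw [h1, sub_self]

/-- If `φ ^ s ≠ φ ^ t` for all `t < s`, there are arbitrarily large independent families. -/
lemma exists_indep [CompactSpace V] [T2Space V] (φ : Module.End (ZMod p) V) (hφ : Continuous φ)
    (hne : ¬ ∃ s t : ℕ, t < s ∧ ∀ v, (φ ^ s) v = (φ ^ t) v) (k : ℕ) :
    ∃ v : Fin k → V, ∀ c : Fin k → (ZMod p)[X], ∑ i, aeval φ (c i) (v i) = 0 → c = 0 := by
  induction k with
  | zero => exact ⟨fun i => i.elim0, fun c _ => Subsingleton.elim _ _⟩
  | succ k ih =>
    obtain ⟨v, hv⟩ := ih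
    have hc1 : Countable (ZMod p)[X] := countable_poly
    obtain ⟨v₀, hv₀⟩ := baire_step φ hφ hne
      (Set.range fun c : Fin k → (ZMod p)[X] => ∑ i, aeval φ (c i) (v i)) (Set.countable_range _)
    refine ⟨Fin.cons v₀ v, fun c hc => ?_⟩
    rw [Fin.sum_univ_succ] at hc
    simp only [Fin.cons_zero, Fin.cons_succ] at hc
    have h0 : c 0 = 0 := by
      by_contra hne0
      refine hv₀ (c 0) hne0 ⟨fun i => - c i.succ, ?_⟩
      simp only [map_neg, LinearMap.neg_apply, Finset.sum_neg_distrib]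
      exact (eq_neg_of_add_eq_zero_left hc).symm
    rw [h0, map_zero, LinearMap.zero_apply, zero_add] at hc
    have h1 := hv (fun i => c i.succ) hc
    funext i
    refine Fin.cases h0 (fun j => congrFun h1 j) i

end PartA

section PartC

variable {p : ℕ} [hp : Fact p.Prime] {V : Type*} [AddCommGroup V] [Module (ZMod p) V]

/-- An independent family of size `k` gives a finite subgroup `F` with `H(φ, F) ≥ k log p`. -/
lemma exists_finite_subgroup {M : Type*} [AddCommGroup M] (φM : AddMonoid.End M)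
    (φ : Module.End (ZMod p) V) (ι : V →+ M) (hι : Function.Injective ι)
    (hcomp : ∀ v, ι (φ v) = φM (ι v)) (k : ℕ) (v : Fin k → V)
    (hv : ∀ c : Fin k → (ZMod p)[X], ∑ i, aeval φ (c i) (v i) = 0 → c = 0) :
    ∃ F : AddSubgroup M, Finite F ∧ k * Real.log p ≤ H φM F := by
  let f : (Fin k → ZMod p) →+ M :=
    { toFun := fun c => ι (∑ i, c i • v i)
      map_zero' := by simp
      map_add' := fun c d => by
        rw [← map_add, ← Finset.sum_add_distrib]
        congr 1
        exact Finset.sum_congr rfl fun i _ => add_smul _ _ _ }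
  have hfin : Finite f.range := Set.finite_range f
  refine ⟨f.range, hfin, le_H φM f.range _ fun n => ?_⟩
  rcases Nat.eq_zero_or_pos n with rfl | hn
  · simp [T_zero]
  have hTfin := finite_T φM f.range n
  have hpow : ∀ j : ℕ, ∀ w, ι ((φ ^ j) w) = (φM ^ j) (ι w) := by
    intro j
    induction j with
    | zero => intro w; rfl
    | succ j ih =>
      intro w
      rw [pow_succ, pow_succ, Module.End.mul_apply, ih, hcomp]
      rfl
  have hmem : ∀ (g : (ZMod p)[X]) (i : Fin k), g.natDegree < n →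
      ι (aeval φ g (v i)) ∈ T φM f.range n := by
    intro g i hg
    rw [aeval_eq_sum_range' hg]
    rw [LinearMap.sum_apply, map_sum]
    refine AddSubgroup.sum_mem _ fun j hj => ?_
    refine map_le_T φM f.range (Finset.mem_range.mp hj) ?_
    refine ⟨ι (g.coeff j • v i), ⟨Pi.single i (g.coeff j), ?_⟩, ?_⟩
    · change ι (∑ l, (Pi.single i (g.coeff j) : Fin k → ZMod p) l • v l) = _
      congr 1
      rw [Finset.sum_eq_single i]
      · rw [Pi.single_eq_same]
      · intro l _ hl
        rw [Pi.single_eq_of_ne hl, zero_smul]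
      · intro h
        exact absurd (Finset.mem_univ i) h
    · rw [LinearMap.smul_apply, ← map_smul, hpow]
      rfl
  let e : (Fin k → degreeLT (ZMod p) n) → T φM f.range n := fun c =>
    ⟨∑ i, ι (aeval φ (c i : (ZMod p)[X]) (v i)), AddSubgroup.sum_mem _ fun i _ => by
      apply hmem
      by_cases h0 : (c i : (ZMod p)[X]) = 0
      · rw [h0, natDegree_zero]
        exact hn
      · rw [natDegree_lt_iff_degree_lt h0]
        exact mem_degreeLT.mp (c i).2⟩
  have he : Function.Injective e := by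
    intro c d hcd
    have h1 : ∑ i, ι (aeval φ (c i : (ZMod p)[X]) (v i)) =
        ∑ i, ι (aeval φ (d i : (ZMod p)[X]) (v i)) := congrArg Subtype.val hcd
    rw [← map_sum, ← map_sum] at h1
    have h2 := hι h1
    have h3 := hv (fun i => (c i : (ZMod p)[X]) - d i) (by
      simp only [map_sub, LinearMap.sub_apply, Finset.sum_sub_distrib]
      exact sub_eq_zero.mpr h2)
    funext i
    exact Subtype.ext (sub_eq_zero.mp (congrFun h3 i))
  have hcard : Nat.card (Fin k → degreeLT (ZMod p) n) = p ^ (n * k) := by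
    rw [Nat.card_pi]
    have h1 : Nat.card (degreeLT (ZMod p) n) = p ^ n := by
      rw [Nat.card_congr (degreeLTEquiv (ZMod p) n).toEquiv, Nat.card_pi]
      simp
    simp [h1, pow_mul]
  have h4 : p ^ (n * k) ≤ Nat.card (T φM f.range n) := by
    rw [← hcard]
    exact Nat.card_le_card_of_injective e he
  have hp1 : (0 : ℝ) < p := by exact_mod_cast hp.1.pos
  have h5 : Real.log ((p : ℝ) ^ (n * k)) ≤ Real.log (Nat.card (T φM f.range n)) := by
    refine Real.log_le_log (by positivity) ?_
    exact_mod_cast h4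
  rw [Real.log_pow] at h5
  push_cast at h5
  linarith

end PartC

section PartD

variable {M : Type*} [AddCommGroup M]

lemma sum_end_apply (s : Finset ℕ) (g : ℕ → AddMonoid.End M) (a : M) :
    (∑ i ∈ s, g i) a = ∑ i ∈ s, g i a := by
  induction s using Finset.induction_on with
  | empty => rfl
  | insert i s hi ih =>
    rw [Finset.sum_insert hi, Finset.sum_insert hi, ← ih]
    rfl

/-- If a monic integer polynomial in `φ` vanishes on `M`, the trajectories are bounded. -/
lemma T_le_of_monic (φ : AddMonoid.End M) (f : ℤ[X]) (hf : f.Monic)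
    (h : ∀ a, (aeval φ f : AddMonoid.End M) a = 0) (F : AddSubgroup M) (n : ℕ) :
    T φ F n ≤ T φ F f.natDegree := by
  unfold T
  refine iSup₂_le fun j _ => ?_
  rintro _ ⟨a, ha, rfl⟩
  change (φ ^ j : AddMonoid.End M) a ∈ T φ F f.natDegree
  have h1 : (φ ^ j : AddMonoid.End M) a = (aeval φ (X ^ j %ₘ f : ℤ[X]) : AddMonoid.End M) a := by
    have h2 : (X ^ j : ℤ[X]) = X ^ j %ₘ f + f * (X ^ j /ₘ f) := (modByMonic_add_div _ f).symm
    have h3 : (φ ^ j : AddMonoid.End M) = aeval φ (X ^ j : ℤ[X]) := by simp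
    rw [h3]
    conv_lhs => rw [h2]
    rw [map_add, map_mul]
    change (aeval φ (X ^ j %ₘ f : ℤ[X]) : AddMonoid.End M) a +
      (aeval φ f : AddMonoid.End M) ((aeval φ (X ^ j /ₘ f : ℤ[X]) : AddMonoid.End M) a) = _
    rw [h, add_zero]
  rw [h1]
  by_cases hf1 : f = 1
  · subst hf1
    rw [modByMonic_one, map_zero]
    exact AddSubgroup.zero_mem _
  · have h4 : (X ^ j %ₘ f : ℤ[X]).natDegree < f.natDegree := natDegree_modByMonic_lt _ hf hf1
    rw [aeval_eq_sum_range' h4]
    rw [sum_end_apply]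
    refine AddSubgroup.sum_mem _ fun i hi => ?_
    refine AddSubgroup.zsmul_mem _ ?_ _
    exact map_le_T φ F (Finset.mem_range.mp hi) ⟨a, ha, rfl⟩

lemma exists_monic (φ : AddMonoid.End M)
    (h : ∀ p : ℕ, p.Prime → ∃ s t : ℕ, t < s ∧ ∀ a : M, p • a = 0 →
      (φ ^ s : AddMonoid.End M) a = (φ ^ t : AddMonoid.End M) a) (N : ℕ) (hN : N ≠ 0) :
    ∃ f : ℤ[X], f.Monic ∧ ∀ a : M, N • a = 0 → (aeval φ f : AddMonoid.End M) a = 0 := by
  induction N using induction_on_primes with
  | zero => exact absurd rfl hN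
  | one => exact ⟨1, monic_one, fun a ha => by rw [one_nsmul] at ha; rw [ha, map_zero]⟩
  | prime_mul p N hp ih =>
    obtain ⟨f, hf, hfa⟩ := ih (by rintro rfl; simp at hN)
    obtain ⟨s, t, hst, hp2⟩ := h p hp
    have hm : (X ^ s - X ^ t : ℤ[X]).Monic := by
      obtain ⟨s', rfl⟩ : ∃ s', s = s' + 1 := ⟨s - 1, by omega⟩
      refine monic_X_pow_sub ?_
      rw [degree_X_pow]
      exact_mod_cast (by omega : t < s' + 1)
    refine ⟨(X ^ s - X ^ t) * f, hm.mul hf, fun a ha => ?_⟩
    rw [map_mul]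
    change (aeval φ (X ^ s - X ^ t : ℤ[X]) : AddMonoid.End M) ((aeval φ f : AddMonoid.End M) a) = 0
    have h1 : p • ((aeval φ f : AddMonoid.End M) a) = 0 := by
      rw [← map_nsmul]
      apply hfa
      rw [← mul_nsmul', mul_comm, ← ha]
    have h2 := hp2 _ h1
    rw [map_sub, map_pow, map_pow, aeval_X]
    change (φ ^ s : AddMonoid.End M) ((aeval φ f : AddMonoid.End M) a) -
      (φ ^ t : AddMonoid.End M) ((aeval φ f : AddMonoid.End M) a) = 0
    rw [h2, sub_self]

end PartD

/-- Continuous endomorphisms of compact Hausdorff abelian groups of finite exponent have entropy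
`0` or `∞`. -/
theorem ent_eq_zero_or_top {M : Type*} [AddCommGroup M] [TopologicalSpace M]
    [IsTopologicalAddGroup M] [CompactSpace M] [T2Space M] (N : ℕ) (hN : N ≠ 0)
    (hM : ∀ a : M, N • a = 0) (φ : AddMonoid.End M) (hφ : Continuous φ) :
    ent φ = 0 ∨ ent φ = ⊤ := by
  by_cases hall : ∀ p : ℕ, p.Prime → ∃ s t : ℕ, t < s ∧ ∀ a : M, p • a = 0 →
      (φ ^ s : AddMonoid.End M) a = (φ ^ t : AddMonoid.End M) a
  · left
    obtain ⟨f, hf, hfa⟩ := exists_monic φ hall N hN
    unfold ent
    refine le_antisymm (iSup_le fun F => iSup_le fun hF => ?_) bot_le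
    rw [H_eq_zero φ F f.natDegree fun n => T_le_of_monic φ f hf (fun a => hfa a (hM a)) F n]
    simp
  · right
    push Not at hall
    obtain ⟨p, hp, hne⟩ := hall
    have hpf : Fact p.Prime := ⟨hp⟩
    obtain ⟨V, hV⟩ : ∃ V : AddSubgroup M, ∀ a : M, a ∈ V ↔ p • a = 0 :=
      ⟨(nsmulAddMonoidHom p : M →+ M).ker, fun a => Iff.rfl⟩
    have hVp : ∀ v : V, p • v = 0 := fun v => Subtype.ext ((hV v.1).mp v.2)
    obtain ⟨mod⟩ : Nonempty (Module (ZMod p) V) := ⟨AddCommGroup.zmodModule hVp⟩
    have hVc : IsClosed (V : Set M) := by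
      have h1 : (V : Set M) = {a | p • a = 0} := Set.ext hV
      rw [h1]
      exact isClosed_eq (continuous_const_smul p) continuous_const
    have hcomp : CompactSpace V := isCompact_iff_compactSpace.mp hVc.isCompact
    let φ₀ : V →+ V :=
      { toFun := fun v => ⟨φ v.1, by rw [hV, ← map_nsmul, (hV v.1).mp v.2, map_zero]⟩
        map_zero' := Subtype.ext (map_zero φ)
        map_add' := fun v w => Subtype.ext (map_add φ v.1 w.1) }
    obtain ⟨φV, hφVe⟩ : ∃ φV : Module.End (ZMod p) V, ∀ v : V, φV v = φ₀ v :=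
      ⟨φ₀.toZModLinearMap p, fun v => rfl⟩
    have hφV : Continuous φV := by
      have h1 : (φV : V → V) = φ₀ := funext hφVe
      rw [h1]
      exact (hφ.comp continuous_subtype_val).subtype_mk _
    have hpow : ∀ j : ℕ, ∀ v : V, (((φV ^ j) v : V) : M) = (φ ^ j : AddMonoid.End M) v.1 := by
      intro j
      induction j with
      | zero => intro v; rfl
      | succ j ih =>
        intro v
        rw [pow_succ, pow_succ, Module.End.mul_apply, ih, hφVe]
        rfl
    have hneV : ¬ ∃ s t : ℕ, t < s ∧ ∀ v, (φV ^ s) v = (φV ^ t) v := by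
      rintro ⟨s, t, hst, h⟩
      obtain ⟨a, ha, hane⟩ := hne s t hst
      apply hane
      have := congrArg Subtype.val (h ⟨a, (hV a).mpr ha⟩)
      rwa [hpow, hpow] at this
    have hk : ∀ k : ℕ, ENNReal.ofReal (k * Real.log p) ≤ ent φ := by
      intro k
      obtain ⟨v, hv⟩ := exists_indep φV hφV hneV k
      obtain ⟨F, hF, hFH⟩ := exists_finite_subgroup φ φV V.subtype V.subtype_injective
        (fun v => by rw [hφVe]; rfl) k v hv
      exact (ENNReal.ofReal_le_ofReal hFH).trans (le_iSup₂_of_le F hF le_rfl)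
    by_contra htop
    have hlog : 0 < Real.log p := Real.log_pos (by exact_mod_cast hp.one_lt)
    obtain ⟨k, hk2⟩ := exists_nat_gt ((ent φ).toReal / Real.log p)
    rw [div_lt_iff₀ hlog] at hk2
    have h3 := hk k
    rw [ENNReal.ofReal_le_iff_le_toReal htop] at h3
    linarith

/-- **Main result.** Let `K` be a finite abelian group with the discrete topology. Every continuous
endomorphism `φ` of `K^ℕ` has algebraic entropy `0` or `∞`. -/
theorem result (K : Type*) [AddCommGroup K] [Finite K] [TopologicalSpace K] [DiscreteTopology K]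
    (φ : AddMonoid.End (ℕ → K)) (hφ : Continuous φ) : ent φ = 0 ∨ ent φ = ⊤ := by
  refine ent_eq_zero_or_top (Nat.card K) Nat.card_pos.ne' (fun a => ?_) φ hφ
  funext n
  exact card_nsmul_eq_zero'

end Pool.Agent.Results.MP_e13f3c_al.EntZeroOrTop
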